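import Pool.Agent.Helper19.AAP.Core

/-!
# AAE, constants independent of `q`: the final count (L3), `Helper19.AAP.almost_core` with two parameters
-/

set_option autoImplicit false

open Polynomial

namespace Pool.Agent.Helper86.XU

open Pool.Agent.Helper84.AA
open Pool.Agent.Helper19.AAP (half)

/-- L3: `Helper19.AAP.almost_core` with `b`, `θ` for `(101/100)^g`, `(98/100)^g`. -/
theorem almost_coreU {q p g : ℕ} (hq : 16 ≤ q) (hp : p.Prime) (hg2 : 2 ≤ g) (Nc : ℤ[X] → Prop)
    {η b θ : ℝ} (hη : 0 ≤ η) (hb : 1 ≤ b) (hθ0 : 0 ≤ θ)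
    (hG1 : b * (preSet q g (g - 1)).ncard ≤ θ * (traceSet q g).ncard)
    (hG2 : (2 * (g : ℝ) + 1) * (4 * √q ^ g + 1) * (preSet q g (g - 2)).ncard ≤
      θ * (traceSet q g).ncard)
    (hG3 : ∑ k ∈ Finset.Icc 1 (g / 2), ((traceSet q k).ncard : ℝ) * (traceSet q (g - k)).ncard ≤
      θ * (traceSet q g).ncard)
    (hG4 : ∀ u ∈ preSet q g (g - 1), Delta q (X * u) ≠ 0 → b ≤ (Jset q g u).ncard →
        (({t ∈ Jset q g u | ¬ Nc (X * u + C t)}.ncard : ℕ) : ℝ) ≤ η * (Jset q g u).ncard)
    (hθ2 : θ ≤ 1 / 12) :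
    (({h ∈ traceSet q g | ¬ (Irreducible h ∧ Nc h)}.ncard : ℕ) : ℝ) ≤
      (3 * θ + η) * (traceSet q g).ncard ∧
      ((traceSet q g).ncard : ℝ) ≤
        3 * (({h ∈ traceSet q g | ¬ (p : ℤ) ∣ h.coeff 0}.ncard : ℕ) : ℝ) := by
  classical
  set N : ℝ := ((traceSet q g).ncard : ℝ) with hN
  have hN0 : 0 ≤ N := Nat.cast_nonneg _
  set P1 := (preSet_finite q g (g - 1)).toFinset with hP1
  set P2 := (preSet_finite q g (g - 2)).toFinset with hP2
  have hP1c : (P1.card : ℝ) = (preSet q g (g - 1)).ncard := by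
    rw [Set.ncard_eq_toFinset_card _ (preSet_finite q g (g - 1))]
  have hP2c : (P2.card : ℝ) = (preSet q g (g - 2)).ncard := by
    rw [Set.ncard_eq_toFinset_card _ (preSet_finite q g (g - 2))]
  have hNsum : N = ∑ u ∈ P1, ((Jset q g u).ncard : ℝ) := by
    have h1 := fib (q := q) (g := g) (by omega) fun _ => True
    simp only [and_true] at h1
    have h2 : {h | h ∈ traceSet q g} = traceSet q g := rfl
    have h3 : ∀ u, {t | t ∈ Jset q g u} = Jset q g u := fun u => rfl
    simp only [h2, h3] at h1
    rw [hN, h1]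
    push_cast
    rfl
  -- the four sets
  set R := {h ∈ traceSet q g | ¬ Irreducible h} with hR
  set D := {h ∈ traceSet q g | Delta q (X * divX h) = 0} with hD
  set S := {h ∈ traceSet q g | ((Jset q g (divX h)).ncard : ℝ) < b} with hS
  set E := {h ∈ traceSet q g | Delta q (X * divX h) ≠ 0 ∧
    b ≤ (Jset q g (divX h)).ncard ∧ ¬ Nc h} with hE
  have hTfin := traceSet_finite q g
  have hsub : {h ∈ traceSet q g | ¬ (Irreducible h ∧ Nc h)} ⊆ R ∪ D ∪ S ∪ E := by
    rintro h ⟨hh, hb⟩
    by_cases hi : Irreducible h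
    · by_cases hd : Delta q (X * divX h) = 0
      · exact Or.inl (Or.inl (Or.inr ⟨hh, hd⟩))
      · by_cases hs : ((Jset q g (divX h)).ncard : ℝ) < b
        · exact Or.inl (Or.inr ⟨hh, hs⟩)
        · exact Or.inr ⟨hh, hd, not_lt.1 hs, fun hn => hb ⟨hi, hn⟩⟩
    · exact Or.inl (Or.inl (Or.inl ⟨hh, hi⟩))
  have hfin : (R ∪ D ∪ S ∪ E).Finite :=
    (((hTfin.subset fun h hh => hh.1).union (hTfin.subset fun h hh => hh.1)).union
      (hTfin.subset fun h hh => hh.1)).union (hTfin.subset fun h hh => hh.1)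
  have hcard : (({h ∈ traceSet q g | ¬ (Irreducible h ∧ Nc h)}.ncard : ℕ) : ℝ) ≤
      R.ncard + D.ncard + S.ncard + E.ncard := by
    have h1 := Set.ncard_le_ncard hsub hfin
    have h2 := Set.ncard_union_le (R ∪ D ∪ S) E
    have h3 := Set.ncard_union_le (R ∪ D) S
    have h4 := Set.ncard_union_le R D
    have h5 : {h ∈ traceSet q g | ¬ (Irreducible h ∧ Nc h)}.ncard ≤
        R.ncard + D.ncard + S.ncard + E.ncard := by omega
    exact_mod_cast h5
  -- reducible
  have bR : (R.ncard : ℝ) ≤ θ * N := by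
    have h1 := red_count (q := q) (g := g) (by omega)
    refine le_trans ?_ hG3
    exact_mod_cast h1
  -- short
  have bS : (S.ncard : ℝ) ≤ θ * N := by
    rw [hS, fib (by omega)]
    refine le_trans ?_ hG1
    push_cast
    rw [← hP1c, ← hP1]
    calc ∑ u ∈ P1, (({t ∈ Jset q g u | ((Jset q g (divX (X * u + C t))).ncard : ℝ) <
            b}.ncard : ℕ) : ℝ) ≤ ∑ _u ∈ P1, b := by
          refine Finset.sum_le_sum fun u _ => ?_
          by_cases hs : ((Jset q g u).ncard : ℝ) < b
          · refine le_trans ?_ hs.le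
            exact_mod_cast sep_ncard_le q g u _
          · have h1 : {t ∈ Jset q g u | ((Jset q g (divX (X * u + C t))).ncard : ℝ) <
                b} = ∅ := by
              ext t
              simp only [divX_X_mul_add, hs, and_false]
              simp
            rw [h1, Set.ncard_empty, Nat.cast_zero]
            linarith
      _ = b * P1.card := by
          rw [Finset.sum_const, nsmul_eq_mul, mul_comm]
  -- degenerate
  have bD : (D.ncard : ℝ) ≤ θ * N := by
    rw [hD, fib (by omega)]
    refine le_trans ?_ hG2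
    push_cast
    rw [← hP2c, ← hP1]
    have hJ0 : (0 : ℝ) ≤ 4 * √q ^ g + 1 := by positivity
    have h1 : (((P1.filter fun u => Delta q (X * u) = 0).card : ℕ) : ℝ) ≤
        (2 * (g : ℝ) + 1) * P2.card := by
      have h2 : (P1.filter fun u => Delta q (X * u) = 0).card ≤
          (2 * g + 1) * ((P1.filter fun u => Delta q (X * u) = 0).image divX).card := by
        refine Finset.card_le_mul_card_image _ _ fun v hv => ?_
        obtain ⟨u0, hu0, rfl⟩ := Finset.mem_image.1 hv
        have hu0' : u0 ∈ preSet q g (g - 1) := by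
          simpa [hP1] using (Finset.mem_filter.1 hu0).1
        have hv' : divX u0 ∈ preSet q g (g - 2) := by
          refine divX_pre (n := g - 2) (by omega) ?_
          have : g - 2 + 1 = g - 1 := by omega
          rw [this]
          exact hu0'
        obtain ⟨hvm, hvd⟩ := pre_monic (by omega) hv'
        obtain ⟨hfin, hcard⟩ := degen (q := q) (g := g) (by omega) hg2 hvm hvd
        refine le_trans ?_ hcard
        rw [Set.ncard_eq_toFinset_card _ hfin]
        refine Finset.card_le_card_of_injOn (fun u => u.coeff 0) ?_ ?_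
        · intro u hu
          simp only [Finset.coe_filter, Finset.mem_filter] at hu
          obtain ⟨⟨_, h5⟩, h6⟩ := hu
          have h7 : X * divX u0 + C (u.coeff 0) = u := by
            rw [← h6, mul_comm]
            exact divX_mul_X_add u
          simp only [Set.Finite.coe_toFinset]
          change Delta q (X * (X * divX u0 + C (u.coeff 0))) = 0
          rw [h7]
          exact h5
        · intro u hu u' hu' h
          simp only [Finset.coe_filter, Finset.mem_filter] at hu hu'
          rw [← divX_mul_X_add u, ← divX_mul_X_add u', hu.2, hu'.2]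
          simp only at h
          rw [h]
      have h3 : ((P1.filter fun u => Delta q (X * u) = 0).image divX).card ≤ P2.card := by
        refine Finset.card_le_card ?_
        intro v hv
        obtain ⟨u0, hu0, rfl⟩ := Finset.mem_image.1 hv
        have hu0' : u0 ∈ preSet q g (g - 1) := by
          simpa [hP1] using (Finset.mem_filter.1 hu0).1
        have hv' : divX u0 ∈ preSet q g (g - 2) := by
          refine divX_pre (n := g - 2) (by omega) ?_
          have : g - 2 + 1 = g - 1 := by omega
          rw [this]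
          exact hu0'
        simpa [hP2] using hv'
      have h4 : (P1.filter fun u => Delta q (X * u) = 0).card ≤ (2 * g + 1) * P2.card :=
        h2.trans (Nat.mul_le_mul_left _ h3)
      exact_mod_cast h4
    calc ∑ u ∈ P1, (({t ∈ Jset q g u | Delta q (X * divX (X * u + C t)) = 0}.ncard : ℕ) : ℝ) ≤
          ∑ u ∈ P1, (if Delta q (X * u) = 0 then (4 * √q ^ g + 1) else 0) := by
          refine Finset.sum_le_sum fun u hu => ?_
          have hu' : u ∈ preSet q g (g - 1) := by simpa [hP1] using hu
          split_ifs with hd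
          · refine le_trans ?_ (Jset_card (by omega) (by omega) hu')
            exact_mod_cast sep_ncard_le q g u _
          · have h2 : {t ∈ Jset q g u | Delta q (X * divX (X * u + C t)) = 0} = ∅ := by
              ext t
              simp only [divX_X_mul_add, hd, and_false]
              simp
            rw [h2, Set.ncard_empty]
            simp
      _ = (((P1.filter fun u => Delta q (X * u) = 0).card : ℕ) : ℝ) * (4 * √q ^ g + 1) := by
          rw [← Finset.sum_filter, Finset.sum_const, nsmul_eq_mul]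
      _ ≤ (2 * (g : ℝ) + 1) * P2.card * (4 * √q ^ g + 1) := mul_le_mul_of_nonneg_right h1 hJ0
      _ = (2 * (g : ℝ) + 1) * (4 * √q ^ g + 1) * P2.card := by ring
  -- all the others
  have bE : (E.ncard : ℝ) ≤ η * N := by
    rw [hE, fib (by omega), hNsum, Finset.mul_sum]
    push_cast
    refine Finset.sum_le_sum fun u hu => ?_
    have hu' : u ∈ preSet q g (g - 1) := by simpa [hP1] using hu
    by_cases hd : Delta q (X * u) ≠ 0 ∧ b ≤ (Jset q g u).ncard
    · refine le_trans ?_ (hG4 u hu' hd.1 hd.2)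
      have h1 : {t ∈ Jset q g u | Delta q (X * divX (X * u + C t)) ≠ 0 ∧
          b ≤ (Jset q g (divX (X * u + C t))).ncard ∧
          ¬ Nc (X * u + C t)} ⊆ {t ∈ Jset q g u | ¬ Nc (X * u + C t)} :=
        fun t ht => ⟨ht.1, ht.2.2.2⟩
      exact_mod_cast Set.ncard_le_ncard h1 ((Jset_finite q g u).subset fun t ht => ht.1)
    · have h1 : {t ∈ Jset q g u | Delta q (X * divX (X * u + C t)) ≠ 0 ∧
          b ≤ (Jset q g (divX (X * u + C t))).ncard ∧
          ¬ Nc (X * u + C t)} = ∅ := by
        refine Set.eq_empty_of_forall_notMem fun t ht => hd ?_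
        have h2 := ht.2
        simp only [divX_X_mul_add] at h2
        exact ⟨h2.1, h2.2.1⟩
      rw [h1, Set.ncard_empty, Nat.cast_zero]
      positivity
  -- ordinary
  set O : ℝ := (({h ∈ traceSet q g | ¬ (p : ℤ) ∣ h.coeff 0}.ncard : ℕ) : ℝ) with hO
  have bO : N ≤ S.ncard + (2 * O + P1.card) := by
    rw [hS, hO, fib (by omega), fib (by omega), hNsum]
    push_cast
    rw [Finset.mul_sum, ← nsmul_one P1.card, ← Finset.sum_const, ← Finset.sum_add_distrib,
      ← Finset.sum_add_distrib]
    refine Finset.sum_le_sum fun u hu => ?_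
    have hu' : u ∈ preSet q g (g - 1) := by simpa [hP1] using hu
    obtain ⟨a, M, hJ⟩ := Jset_Ico q g u
    have hM : (Jset q g u).ncard = M := by
      rw [hJ, ← Finset.coe_Ico, Set.ncard_coe_finset, Int.card_Ico]
      simp
    have h8 := half hp.two_le a M
    have h9 : {t ∈ Jset q g u | ¬ (p : ℤ) ∣ (X * u + C t).coeff 0} =
        {t ∈ Set.Ico a (a + M) | ¬ (p : ℤ) ∣ t} := by
      ext t
      rw [hJ]
      simp only [coeff_X_mul_add]
    rw [h9, hM]
    have h10 : (M : ℝ) ≤ 2 * ({t ∈ Set.Ico a (a + M) | ¬ (p : ℤ) ∣ t}.ncard : ℕ) + 1 := by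
      exact_mod_cast h8
    have h11 : (0 : ℝ) ≤ (({t ∈ Jset q g u | ((Jset q g (divX (X * u + C t))).ncard : ℝ) <
      b}.ncard : ℕ) : ℝ) := Nat.cast_nonneg _
    linarith
  have hP1N : (P1.card : ℝ) ≤ θ * N := by
    refine le_trans ?_ hG1
    rw [hP1c]
    have h1 : (1 : ℝ) ≤ b := hb
    have h2 : (0 : ℝ) ≤ (preSet q g (g - 1)).ncard := Nat.cast_nonneg _
    nlinarith
  have hO3 : N ≤ 3 * O := by
    have h1 : θ * N ≤ 1 / 12 * N := mul_le_mul_of_nonneg_right hθ2 hN0
    linarith
  refine ⟨?_, hO3⟩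
  calc (({h ∈ traceSet q g | ¬ (Irreducible h ∧ Nc h)}.ncard : ℕ) : ℝ) ≤
        R.ncard + D.ncard + S.ncard + E.ncard := hcard
    _ ≤ (3 * θ + η) * N := by linarith

end Pool.Agent.Helper86.XU
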